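import Pool.Agent.H518R3.Main

/-! Hereditarily locally connected separable metric spaces have dimension at most one. -/

namespace Pool.Agent.Results.MP_a1dcbe_gt.HlcIndLeOne

open Pool.Agent.H518R3 TopologicalSpace

universe u

/-- Let `X` be a separable metric space all of whose connected subsets are locally connected
(in the subspace topology), and suppose that `X` is connected, or only locally connected.
Then the small inductive dimension of `X` is at most one. -/
theorem result {X : Type u} [MetricSpace X] [SeparableSpace X]
    (hX : ConnectedSpace X ∨ LocallyConnectedSpace X)
    (hlc : ∀ S : Set X, IsConnected S → LocallyConnectedSpace S) : IndLT 2 X := by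
  rcases hX with hX | hX
  · exact indLT_two_of_connected hlc
  · exact indLT_two_of_locallyConnected hX hlc

end Pool.Agent.Results.MP_a1dcbe_gt.HlcIndLeOne
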